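import Mathlib
import Pool.Agent.H.MP_927db0_al.A
import Pool.Agent.H.MP_e15593_al.A
import Pool.Agent.H.MP_e15593_al.B

set_option maxRecDepth 100000

namespace Pool.Agent.Results.MP_e15593_al.No

open Pool.Agent.H.MP_e15593_al Pool.Agent.H.MP_927db0_al

/-- The order sequence: the orders of all elements, sorted in non-decreasing order. -/
noncomputable def os (G : Type) [Group G] [Fintype G] : List ℕ :=
  (Finset.univ.val.map (fun g : G => orderOf g)).sort (· ≤ ·)

/-- `a` dominates `b`: same length and termwise at least as large. -/
def Dominates (a b : List ℕ) : Prop :=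
  a.length = b.length ∧ ∀ (i : ℕ) (ha : i < a.length) (hb : i < b.length), b[i] ≤ a[i]

/-- `G` has minimal order sequence among the groups of its order. -/
def MinimalOS (G : Type) [Group G] [Fintype G] : Prop :=
  ∀ (H : Type) [Group H] [Fintype H], Fintype.card H = Fintype.card G →
    Dominates (os G) (os H) → os H = os G

theorem os_length (G : Type) [Group G] [Fintype G] : (os G).length = Fintype.card G := by
  rw [os, Multiset.length_sort, Multiset.card_map]; rfl

theorem result :
    (∃ (G : Type) (_ : Group G) (_ : Fintype G), Fintype.card G = 3660 ∧ ¬ Group.IsSolvable G) ∧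
    ∀ (G : Type) [Group G] [Fintype G], Fintype.card G = 3660 → MinimalOS G →
      Group.IsSolvable G := by
  classical
  constructor
  · refine ⟨A5 × Multiplicative (ZMod 61), inferInstance, inferInstance, ?_, ?_⟩
    · rw [← Nat.card_eq_fintype_card, Nat.card_prod, cardA5]
      simp
    · intro h
      exact A5_not_solvable (Group.isSolvable_of_surjective
        (f := MonoidHom.fst A5 (Multiplicative (ZMod 61))) (fun a => ⟨(a, 1), rfl⟩))
  · intro G _ _ hc hmin
    by_contra hs
    have h60 := count_le G hc hs
    have hdom : Dominates (os G) (os F) := by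
      refine ⟨by rw [os_length, os_length, hc, cardF], ?_⟩
      intro i ha hb
      have h1 := (sorted_le_iff ((os G)[i]) (os G) (Multiset.pairwise_sort _ _) i ha).mp le_rfl
      refine (sorted_le_iff ((os G)[i]) (os F) (Multiset.pairwise_sort _ _) i hb).mpr ?_
      have h2 := count_cmp G hc h60 ((os G)[i])
      rw [← count_sort, ← count_sort] at h2
      exact lt_of_lt_of_le h1 h2
    have heq := hmin F (by rw [cardF, hc]) hdom
    have h3 := count_sort F 2
    have h4 := count_sort G 2
    have h5 : (Finset.univ.filter (fun g : G => orderOf g ≤ 2)).card ≤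
        (Finset.univ.filter (fun g : G => orderOf g ≤ 60)).card := by
      apply Finset.card_le_card
      intro g hg
      simp only [Finset.mem_filter, Finset.mem_univ, true_and] at hg ⊢
      omega
    have h6 := count_F2
    unfold os at heq
    rw [heq, h4] at h3
    omega

end Pool.Agent.Results.MP_e15593_al.No
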